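import Pool.Agent.helper43.Rsl2.Two

/-! The bound for the Ramsey number when the `ℓ`-core splits into two degenerate parts. -/

namespace Pool.Agent.helper43.Rsl2

open Finset Pool.Agent.helper60.Rsl
open scoped Classical

variable {V W : Type*} {R : SimpleGraph V}

/-- The chain of cores. -/
theorem chain_core [Fintype W] (F : SimpleGraph W) {D : ℕ} (hD : 1 ≤ D) (hFD : Degen F D)
    (hF : ∀ w, 1 ≤ F.degree w) :
    Chain F (Nat.log 2 D + 1) (fun j => core F (2 ^ j)) (fun j => 2 ^ (j + 1)) ∧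
      Bd (Nat.log 2 D + 1) (fun j => core F (2 ^ j)) (fun j => 2 ^ (j + 1)) (4 * D)
        (8 * (F.edgeFinset.card : ℝ)) ∧ core F (2 ^ 0) = univ := by
  set m := F.edgeFinset.card with hmdef
  have hlog : 2 ^ Nat.log 2 D ≤ D := Nat.pow_log_le_self 2 (by omega)
  have hlog2 : D < 2 ^ (Nat.log 2 D + 1) := Nat.lt_pow_succ_log_self (by norm_num) D
  set J := Nat.log 2 D + 1 with hJ
  have h2J : 2 ^ J ≤ 2 * D := by
    rw [hJ, pow_succ]; omega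
  refine ⟨⟨?_, ?_, ?_, ?_⟩, ⟨?_, ?_, ?_⟩, ?_⟩
  · intro j
    exact core_anti F (Nat.pow_le_pow_right (by norm_num) (Nat.le_succ j))
  · rw [← not_nonempty_iff_eq_empty]
    intro hne
    obtain ⟨w, hw, hw2⟩ := hFD _ hne
    have := core_min hw
    omega
  · intro j hj T hT1 hT2
    obtain ⟨w, hw1, hw2, hw3⟩ := core_bound hT1
    exact ⟨w, hw1, hw2, hw3.le⟩
  · intro j hj
    exact Nat.one_le_two_pow
  · have := sum_two_pow J
    omega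
  · have h1 : (core F (2 ^ 0)).card ≤ 2 * m := by
      rw [hmdef, ← SimpleGraph.sum_degrees_eq_twice_card_edges]
      calc (core F (2 ^ 0)).card = ∑ w ∈ core F (2 ^ 0), 1 := by simp
        _ ≤ ∑ w ∈ core F (2 ^ 0), F.degree w := sum_le_sum fun w hw => by
            have := core_deg hw
            simpa using this
        _ ≤ ∑ w, F.degree w := sum_le_sum_of_subset (subset_univ _)
    have h2 : ((core F (2 ^ 0)).card : ℝ) ≤ 2 * m := by exact_mod_cast h1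
    have h3 : (0 : ℝ) ≤ m := Nat.cast_nonneg _
    show ((core F (2 ^ 0)).card : ℝ) ≤ 8 * (m : ℝ)
    linarith
  · have key : ∑ j ∈ range J, 2 ^ (j + 1) * (core F (2 ^ j)).card ≤ 8 * m := by
      have h2 : ∑ j ∈ range J, 2 ^ (j + 1) * (core F (2 ^ j)).card ≤
          ∑ w : W, ∑ j ∈ range J, (if 2 ^ j ≤ F.degree w then 2 ^ (j + 1) else 0) := by
        rw [sum_comm]
        apply sum_le_sum
        intro j hj
        rw [← sum_filter, sum_const, smul_eq_mul, mul_comm]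
        apply Nat.mul_le_mul_right
        apply card_le_card
        intro w hw
        exact mem_filter.2 ⟨mem_univ _, core_deg hw⟩
      refine h2.trans ?_
      calc ∑ w : W, ∑ j ∈ range J, (if 2 ^ j ≤ F.degree w then 2 ^ (j + 1) else 0)
          ≤ ∑ w : W, 4 * F.degree w := sum_le_sum fun _ _ => (geom_aux _ _).1
        _ = 8 * m := by
            rw [← mul_sum, SimpleGraph.sum_degrees_eq_twice_card_edges, ← hmdef]; ring
    exact_mod_cast key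
  · apply eq_univ_of_forall
    intro w
    apply subset_core (T := univ) _ (mem_univ w)
    intro x _
    rw [deg_eq, pow_zero]
    exact hF x

/-- The part outside `Y` of a set. -/
theorem degen_rest [Fintype W] {F : SimpleGraph W} {ℓ kx : ℕ} {X Y : Finset W}
    (hXY : core F ℓ ⊆ X ∪ Y) (hX : DegenOn F X kx) (S : Finset W) :
    DegenOn F (S \ (S ∩ (Y ∩ core F ℓ))) (max ℓ kx) := by
  intro T h1 h2
  have hsub : ∀ w ∈ T, w ∈ core F ℓ → w ∈ X := by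
    intro w hw hc
    have h3 := mem_sdiff.1 (h1 hw)
    rcases mem_union.1 (hXY hc) with h | h
    · exact h
    · exact absurd (mem_inter.2 ⟨h3.1, mem_inter.2 ⟨h, hc⟩⟩) h3.2
  by_cases hT : T ⊆ core F ℓ
  · obtain ⟨w, hw, hk⟩ := hX T (fun w hw => hsub w hw (hT hw)) h2
    exact ⟨w, hw, hk.trans (le_max_right _ _)⟩
  · have h3 : core F ℓ ⊂ T ∪ core F ℓ := by
      rw [ssubset_iff_of_subset subset_union_right]
      obtain ⟨w, hw1, hw2⟩ := not_subset.1 hT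
      exact ⟨w, mem_union_left _ hw1, hw2⟩
    obtain ⟨w, hw1, hw2, hw3⟩ := core_bound h3
    refine ⟨w, (mem_union.1 hw1).resolve_right hw2, le_trans ?_ (le_max_left _ _)⟩
    exact (card_le_card (filter_subset_filter _ subset_union_left)).trans hw3.le

theorem degen_rest' [Fintype W] {F : SimpleGraph W} {ℓ kx : ℕ} {X Y : Finset W}
    (hXY : core F ℓ ⊆ X ∪ Y) (hX : DegenOn F X kx) {S : Finset W} (hS : S ⊆ core F ℓ) :
    DegenOn F (S \ (S ∩ (Y ∩ core F ℓ))) kx := by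
  apply hX.mono
  intro w hw
  have h3 := mem_sdiff.1 hw
  rcases mem_union.1 (hXY (hS h3.1)) with h | h
  · exact h
  · exact absurd (mem_inter.2 ⟨h3.1, mem_inter.2 ⟨h, hS h3.1⟩⟩) h3.2

theorem cube_third {x : ℝ} (hx : 0 ≤ x) : (x ^ (1 / 3 : ℝ)) ^ 3 = x := by
  rw [← Real.rpow_natCast, ← Real.rpow_mul hx]
  norm_num

theorem cube_two_thirds {x : ℝ} (hx : 0 ≤ x) : (x ^ (2 / 3 : ℝ)) ^ 3 = x ^ 2 := by
  rw [← Real.rpow_natCast, ← Real.rpow_mul hx, ← Real.rpow_natCast]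
  norm_num

/-- The cube of a sum. -/
theorem cube_num {c h z t B' : ℝ} (hc : 0 ≤ c) (hh : 0 ≤ h) (hz : 0 ≤ z) (hzt : z ≤ t)
    (hB : c * (h + t) ≤ B') : c ^ 3 * (z ^ 3 + 3 * (z ^ 2 * h)) ≤ B' ^ 3 := by
  have e1 : c * (h + z) ≤ B' := le_trans (mul_le_mul_of_nonneg_left (by linarith) hc) hB
  have e2 : (c * (h + z)) ^ 3 ≤ B' ^ 3 := pow_le_pow_left₀ (by positivity) e1 3
  refine le_trans ?_ e2
  rw [mul_pow]
  apply mul_le_mul_of_nonneg_left _ (by positivity)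
  have e3 : (h + z) ^ 3 = z ^ 3 + 3 * (z ^ 2 * h) + (3 * (z * h ^ 2) + h ^ 3) := by ring
  have e4 : 0 ≤ 3 * (z * h ^ 2) + h ^ 3 := by positivity
  linarith

theorem s_num1 {s : ℝ} (hs : 0 ≤ s) : (s + 1) ^ 2 * (s + 4) ≤ (s + 4) ^ 6 := by
  calc (s + 1) ^ 2 * (s + 4) ≤ (s + 4) ^ 2 * (s + 4) := by
        gcongr; norm_num
    _ = (s + 4) ^ 3 := by ring
    _ ≤ _ := pow_le_pow_right₀ (by linarith) (by norm_num)

theorem s_num2 {s : ℝ} (hs : 0 ≤ s) : (s + 1) ^ 4 ≤ (s + 4) ^ 6 := by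
  calc (s + 1) ^ 4 ≤ (s + 4) ^ 4 := by gcongr; norm_num
    _ ≤ _ := pow_le_pow_right₀ (by linarith) (by norm_num)

theorem hc1_num {s h A B' q b y : ℝ} (hs : 0 ≤ s) (hh : 0 ≤ h) (hA : 0 ≤ A) (hy : 0 ≤ y)
    (hy2 : y ^ 2 = b) (hq : 0 ≤ q) (hbq : b ≤ q)
    (hB : 2000 * (s + 4) ^ 2 * (h + (A + q * y)) ≤ B') :
    8192 * (s + 1) ^ 2 * q ^ 2 * (2048 * (s + 4) * b * h + 12100 * (s + 1) ^ 2 * y ^ 5) ≤
      B' ^ 3 := by
  have hx : 0 ≤ q * y := by positivity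
  have e1 := cube_num (by positivity) hh hx (by linarith) hB
  refine le_trans ?_ e1
  have e3 : q ^ 2 * y ^ 5 ≤ (q * y) ^ 3 := by
    have f1 : q ^ 2 * y ^ 5 = q ^ 2 * y ^ 3 * b := by rw [← hy2]; ring
    have f2 : (q * y) ^ 3 = q ^ 2 * y ^ 3 * q := by ring
    rw [f1, f2]
    exact mul_le_mul_of_nonneg_left hbq (by positivity)
  have g3 : 0 ≤ (s + 4) ^ 6 := by positivity
  have g4 : 0 ≤ (q * y) ^ 2 * h := by positivity
  have g5 : 0 ≤ (q * y) ^ 3 := by positivity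
  have h1 := mul_le_mul_of_nonneg_right (s_num1 hs) g4
  have h2 := mul_le_mul (s_num2 hs) e3 (by positivity) g3
  have h3 : 0 ≤ (s + 4) ^ 6 * ((q * y) ^ 2 * h) := by positivity
  have h4 : 0 ≤ (s + 4) ^ 6 * (q * y) ^ 3 := by positivity
  have e5 : 8192 * (s + 1) ^ 2 * q ^ 2 * (2048 * (s + 4) * b * h +
      12100 * (s + 1) ^ 2 * y ^ 5) = 16777216 * ((s + 1) ^ 2 * (s + 4) * ((q * y) ^ 2 * h)) +
      99123200 * ((s + 1) ^ 4 * (q ^ 2 * y ^ 5)) := by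
    rw [← hy2]; ring
  have e6 : (2000 * (s + 4) ^ 2) ^ 3 * ((q * y) ^ 3 + 3 * ((q * y) ^ 2 * h)) =
      8000000000 * ((s + 4) ^ 6 * (q * y) ^ 3) + 24000000000 * ((s + 4) ^ 6 * ((q * y) ^ 2 * h)) := by
    ring
  rw [e5, e6]
  linarith

theorem hc2_num {s h X B' k w : ℝ} (hs : 0 ≤ s) (hh : 0 ≤ h) (hX : 0 ≤ X) (hw : 0 ≤ w)
    (hw2 : w ^ 2 = k) (hB : 2000 * (s + 4) ^ 2 * (h + (w ^ 3 + X)) ≤ B') :
    131072 * (s + 1) ^ 2 * k ^ 2 * (2048 * (s + 4) * k * h + 12100 * (s + 1) ^ 2 * w ^ 5) ≤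
      B' ^ 3 := by
  have hx : 0 ≤ w ^ 3 := by positivity
  have e1 := cube_num (by positivity) hh hx (by linarith) hB
  refine le_trans ?_ e1
  have g4 : 0 ≤ (w ^ 3) ^ 2 * h := by positivity
  have g5 : 0 ≤ (w ^ 3) ^ 3 := by positivity
  have h1 := mul_le_mul_of_nonneg_right (s_num1 hs) g4
  have h2 := mul_le_mul_of_nonneg_right (s_num2 hs) g5
  have h3 : 0 ≤ (s + 4) ^ 6 * ((w ^ 3) ^ 2 * h) := by positivity
  have h4 : 0 ≤ (s + 4) ^ 6 * (w ^ 3) ^ 3 := by positivity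
  have e5 : 131072 * (s + 1) ^ 2 * k ^ 2 * (2048 * (s + 4) * k * h +
      12100 * (s + 1) ^ 2 * w ^ 5) = 268435456 * ((s + 1) ^ 2 * (s + 4) * ((w ^ 3) ^ 2 * h)) +
      1585971200 * ((s + 1) ^ 4 * (w ^ 3) ^ 3) := by
    rw [← hw2]; ring
  have e6 : (2000 * (s + 4) ^ 2) ^ 3 * ((w ^ 3) ^ 3 + 3 * ((w ^ 3) ^ 2 * h)) =
      8000000000 * ((s + 4) ^ 6 * (w ^ 3) ^ 3) +
      24000000000 * ((s + 4) ^ 6 * ((w ^ 3) ^ 2 * h)) := by
    ring
  rw [e5, e6]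
  linarith

theorem hc3_num {s t ν n N B' : ℝ} {b : ℝ} (hs : 0 ≤ s) (ht : 0 ≤ t) (hν : 0 ≤ ν)
    (ht3 : t ^ 3 = b) (hν3 : ν ^ 3 = N) (hn : n ≤ N)
    (hB : 64 * (s + 1) * t ^ 2 * ν ≤ B') : 262144 * (s + 1) ^ 2 * b ^ 2 * n ≤ B' ^ 3 := by
  have h2 := pow_le_pow_left₀ (by positivity) hB 3
  refine le_trans ?_ h2
  have h4 : (64 * (s + 1) * t ^ 2 * ν) ^ 3 = 262144 * (s + 1) ^ 3 * b ^ 2 * N := by
    rw [← hν3, ← ht3]; ring
  rw [h4]
  have h5 : (s + 1) ^ 2 ≤ (s + 1) ^ 3 := pow_le_pow_right₀ (by linarith) (by norm_num)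
  have h6 : 0 ≤ N := by rw [← hν3]; positivity
  have h7 : 262144 * (s + 1) ^ 2 * b ^ 2 * n ≤ 262144 * (s + 1) ^ 2 * b ^ 2 * N :=
    mul_le_mul_of_nonneg_left hn (by positivity)
  have h8 : (s + 1) ^ 2 * (b ^ 2 * N) ≤ (s + 1) ^ 3 * (b ^ 2 * N) :=
    mul_le_mul_of_nonneg_right h5 (by positivity)
  linarith

theorem hBa_num {k : ℕ} {s h X B' : ℝ} (hs : 0 ≤ s) (hh : 0 ≤ h) (hX : 0 ≤ X)
    (hB : 2000 * (s + 4) ^ 2 * (h + (Real.sqrt k ^ 3 + X)) ≤ B') : 512 * (k : ℝ) ≤ B' := by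
  refine le_trans ?_ hB
  have hw : 0 ≤ Real.sqrt k := Real.sqrt_nonneg _
  have h1 : (k : ℝ) ≤ Real.sqrt k ^ 3 := by
    rcases Nat.eq_zero_or_pos k with h0 | h0
    · rw [h0, Nat.cast_zero]; positivity
    · have e1 : (1 : ℝ) ≤ (k : ℝ) := by exact_mod_cast h0
      have e2 : (1 : ℝ) ≤ Real.sqrt k := by rwa [Real.one_le_sqrt]
      have e3 : (k : ℝ) * 1 ≤ (k : ℝ) * Real.sqrt k := mul_le_mul_of_nonneg_left e2 (by linarith)
      rw [pow_succ, Real.sq_sqrt (by linarith)]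
      linarith
  have h2 : (512 : ℝ) ≤ 2000 * (s + 4) ^ 2 := by nlinarith
  have h3 : 512 * (k : ℝ) ≤ 512 * (h + (Real.sqrt k ^ 3 + X)) := by linarith
  have h4 : 0 ≤ h + (Real.sqrt k ^ 3 + X) := by positivity
  exact h3.trans (mul_le_mul_of_nonneg_right h2 h4)

theorem hB1_num {s h t B' : ℝ} (hs : 0 ≤ s) (hh : 0 ≤ h) (ht : 0 ≤ t)
    (hB : 2000 * (s + 4) ^ 2 * (h + t) ≤ B') : 128 * (s + 4) * h ≤ B' := by
  refine le_trans ?_ hB
  have h1 : 128 * (s + 4) ≤ 2000 * (s + 4) ^ 2 := by nlinarith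
  have h2 := mul_le_mul_of_nonneg_right h1 hh
  have h3 : 0 ≤ 2000 * (s + 4) ^ 2 * t := by positivity
  linarith

theorem r_num {D y kt : ℝ} (hD : 0 ≤ D) (hy : 0 ≤ y) (hyD : y ≤ Real.sqrt D) (hkt : kt ^ 3 = y ^ 2) :
    (Real.sqrt D * kt) ^ 3 ≤ D ^ 2 * y := by
  have e1 : (Real.sqrt D * kt) ^ 3 = D * (Real.sqrt D * y) * y := by
    rw [mul_pow, hkt, pow_succ (Real.sqrt D) 2, Real.sq_sqrt hD]
    ring
  have e3 : Real.sqrt D * y ≤ D := by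
    have := mul_le_mul_of_nonneg_left hyD (Real.sqrt_nonneg (D : ℝ))
    rwa [Real.mul_self_sqrt hD] at this
  rw [e1]
  have e4 : D * (Real.sqrt D * y) ≤ D * D := mul_le_mul_of_nonneg_left e3 hD
  calc D * (Real.sqrt D * y) * y ≤ D * D * y := mul_le_mul_of_nonneg_right e4 hy
    _ = _ := by ring

theorem nu_num {s K r ν N : ℝ} (hs : 0 ≤ s) (hK : K = 4000000 * (s + 4) ^ 3) (hr : 0 ≤ r)
    (hν : 0 ≤ ν) (hν3 : ν ^ 3 = N) (h : K * r ^ 3 ≤ N) : 24576 * (s + 1) * (r ^ 2 * ν) ≤ N := by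
  have hK157 : (157 * (s + 1)) ^ 3 ≤ K := by
    rw [hK, mul_pow]
    have e1 : (s + 1) ^ 3 ≤ (s + 4) ^ 3 := by gcongr; norm_num
    have e2 : 0 ≤ (s + 4) ^ 3 := by positivity
    linarith
  have e1 : (157 * (s + 1) * r) ^ 3 ≤ ν ^ 3 := by
    rw [hν3, mul_pow]
    exact (mul_le_mul_of_nonneg_right hK157 (by positivity)).trans h
  have e2 : 157 * (s + 1) * r ≤ ν := le_of_pow_le_pow_left₀ (by norm_num) hν e1
  have e3 : (157 * (s + 1) * r) ^ 2 ≤ ν ^ 2 := pow_le_pow_left₀ (by positivity) e2 2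
  have e4 : 24576 * (s + 1) * r ^ 2 ≤ ν ^ 2 := by
    refine le_trans ?_ e3
    have e5 : (s + 1) * r ^ 2 ≤ (s + 1) ^ 2 * r ^ 2 := by
      apply mul_le_mul_of_nonneg_right _ (by positivity)
      nlinarith
    have e6 : 0 ≤ (s + 1) ^ 2 * r ^ 2 := by positivity
    have e7 : (157 * (s + 1) * r) ^ 2 = 24649 * ((s + 1) ^ 2 * r ^ 2) := by ring
    rw [e7]
    linarith
  calc 24576 * (s + 1) * (r ^ 2 * ν) = (24576 * (s + 1) * r ^ 2) * ν := by ring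
    _ ≤ ν ^ 2 * ν := mul_le_mul_of_nonneg_right e4 hν
    _ = N := by rw [← pow_succ, hν3]

/-- The sum over the scales of `b_j · √(k_j)³`. -/
theorem sum_alpha {ℓ kx J : ℕ} {D : ℝ} (e3 : ∑ j ∈ range J, ((2 ^ (j + 1) : ℕ) : ℝ) ≤ 4 * D) :
    ∑ j ∈ range J, ((2 ^ (j + 1) : ℕ) : ℝ) *
      Real.sqrt ((if 2 ^ j < ℓ then max ℓ kx else kx : ℕ) : ℝ) ^ 3 ≤
      4 * (ℓ : ℝ) ^ (5 / 2 : ℝ) + 4 * (D * (kx : ℝ) ^ (3 / 2 : ℝ)) := by
  have hpow : ∀ n : ℕ, Real.sqrt n ^ 3 = (n : ℝ) ^ (3 / 2 : ℝ) := by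
    intro n
    rw [Real.sqrt_eq_rpow, ← Real.rpow_natCast, ← Real.rpow_mul (Nat.cast_nonneg _)]
    norm_num
  have hl : (ℓ : ℝ) * Real.sqrt ℓ ^ 3 = (ℓ : ℝ) ^ (5 / 2 : ℝ) := by
    rcases Nat.eq_zero_or_pos ℓ with h0 | h0
    · rw [h0, Nat.cast_zero, Real.zero_rpow (by norm_num)]; norm_num
    · have hlpos : (0 : ℝ) < ℓ := by exact_mod_cast h0
      rw [hpow]
      have f1 : (ℓ : ℝ) * (ℓ : ℝ) ^ (3 / 2 : ℝ) = (ℓ : ℝ) ^ (1 : ℝ) * (ℓ : ℝ) ^ (3 / 2 : ℝ) := by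
        rw [Real.rpow_one]
      rw [f1, ← Real.rpow_add hlpos]; norm_num
  have f1 : ∀ j ∈ range J, ((2 ^ (j + 1) : ℕ) : ℝ) *
      Real.sqrt ((if 2 ^ j < ℓ then max ℓ kx else kx : ℕ) : ℝ) ^ 3 ≤
      ((if 2 ^ j ≤ ℓ then 2 ^ (j + 1) else 0 : ℕ) : ℝ) * Real.sqrt ℓ ^ 3 +
      ((2 ^ (j + 1) : ℕ) : ℝ) * Real.sqrt kx ^ 3 := by
    intro j _
    have hb0 : (0 : ℝ) ≤ ((2 ^ (j + 1) : ℕ) : ℝ) := Nat.cast_nonneg _
    have f4 : 0 ≤ Real.sqrt ℓ ^ 3 := by positivity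
    have f5 : 0 ≤ Real.sqrt kx ^ 3 := by positivity
    by_cases hjl : 2 ^ j < ℓ
    · rw [if_pos hjl, if_pos hjl.le, ← mul_add]
      apply mul_le_mul_of_nonneg_left _ hb0
      rcases le_total ℓ kx with h | h
      · rw [max_eq_right h]; linarith
      · rw [max_eq_left h]; linarith
    · rw [if_neg hjl]
      have f6 : 0 ≤ ((if 2 ^ j ≤ ℓ then 2 ^ (j + 1) else 0 : ℕ) : ℝ) * Real.sqrt ℓ ^ 3 := by
        positivity
      linarith
  refine (sum_le_sum f1).trans ?_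
  rw [sum_add_distrib, ← sum_mul, ← sum_mul]
  have f2 : ∑ j ∈ range J, ((if 2 ^ j ≤ ℓ then 2 ^ (j + 1) else 0 : ℕ) : ℝ) ≤ 4 * ℓ := by
    have := (geom_aux ℓ J).1
    exact_mod_cast this
  have f5 := mul_le_mul_of_nonneg_right f2 (by positivity : 0 ≤ Real.sqrt ℓ ^ 3)
  have f6 := mul_le_mul_of_nonneg_right e3 (by positivity : 0 ≤ Real.sqrt kx ^ 3)
  rw [← hl, ← hpow kx]
  linarith

/-- The final summation. -/
theorem sum_num {s K N m L DK DY D c x S1 S2 S3 t : ℝ} (hs : 0 ≤ s)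
    (hK : K = 4000000 * (s + 4) ^ 3) (hc : c = 2000 * (s + 4) ^ 2) (hm : 0 ≤ m) (hL : 0 ≤ L)
    (hDK : 0 ≤ DK) (hDY : 0 ≤ DY) (hx : 0 ≤ x) (ht : 0 ≤ t)
    (hN1 : K * m ≤ N) (hN2 : K * L ≤ N) (hN3 : K * DK ≤ N) (hN4 : K * DY ≤ N)
    (e2 : S1 ≤ 8 * m) (e4 : S2 ≤ 4 * L + 4 * DK) (e3 : S3 ≤ 4 * D) (hxD : x * (4 * D) = 16 * DY)
    (htD : 96 * (t * (4 * D)) ≤ N) :
    c * S1 + c * S2 + c * x * S3 + t * S3 ≤ N / 16 := by
  have hcpos : 0 < c := by rw [hc]; positivity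
  have hK0 : 0 ≤ K := by rw [hK]; positivity
  have hN0 : 0 ≤ N := le_trans (mul_nonneg hK0 hm) hN1
  have hK4 : 4000000 * (s + 4) ^ 2 ≤ K / 4 := by
    rw [hK]
    have e5 : (s + 4) ^ 3 = (s + 4) ^ 2 * (s + 4) := by ring
    have e6 : 0 ≤ (s + 4) ^ 2 := by positivity
    rw [e5]
    nlinarith
  have hcK : 2000 * c ≤ K / 4 := by
    refine le_trans (le_of_eq ?_) hK4
    rw [hc]; ring
  have hcz : ∀ z : ℝ, 0 ≤ z → K * z ≤ N → 8000 * (c * z) ≤ N := by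
    intro z hz hzN
    have f1 := mul_le_mul_of_nonneg_right hcK hz
    linarith
  have g1 : c * S1 ≤ N / 64 := by
    have h1 := mul_le_mul_of_nonneg_left e2 hcpos.le
    have h2 := hcz m hm hN1
    linarith
  have g2 : c * S2 ≤ N / 64 := by
    have h1 := mul_le_mul_of_nonneg_left e4 hcpos.le
    have h2 := hcz _ hL hN2
    have h3 := hcz _ hDK hN3
    linarith
  have g3 : c * x * S3 ≤ N / 64 := by
    have h1 := mul_le_mul_of_nonneg_left e3 (by positivity : 0 ≤ c * x)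
    have h2 := hcz _ hDY hN4
    have h3 : c * x * (4 * D) = 16 * (c * DY) := by
      calc c * x * (4 * D) = c * (x * (4 * D)) := by ring
        _ = _ := by rw [hxD]; ring
    rw [h3] at h1
    linarith
  have g4 : t * S3 ≤ N / 64 := by
    have h1 := mul_le_mul_of_nonneg_left e3 ht
    linarith
  linarith

/-- Embedding of `F` into the complement. -/
theorem emb_two {s : ℕ} (hR : FewCommon R s) [Fintype W] (F : SimpleGraph W)
    (hm : 1 ≤ F.edgeFinset.card) (hF : ∀ w, 1 ≤ F.degree w)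
    {D : ℕ} (hD : 1 ≤ D) (hFD : Degen F D) {ℓ kx ky : ℕ} {X Y : Finset W} (hkyD : ky ≤ D)
    (hXY : core F ℓ ⊆ X ∪ Y) (hX : DegenOn F X kx) (hY : DegenOn F Y ky) {U : Finset V}
    (hU : 4000000 * ((s : ℝ) + 4) ^ 3 * ((F.edgeFinset.card : ℝ) + (ℓ : ℝ) ^ (5 / 2 : ℝ) +
      (D : ℝ) * (kx : ℝ) ^ (3 / 2 : ℝ) + (D : ℝ) ^ 2 * Real.sqrt ky) ≤ U.card) :
    BlueEmb R F univ U := by
  obtain ⟨hc, hb, hS0⟩ := chain_core F hD hFD hF
  have hm1 : (1 : ℝ) ≤ (F.edgeFinset.card : ℝ) := by exact_mod_cast hm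
  have hs0 : (0 : ℝ) ≤ s := Nat.cast_nonneg _
  have hD1 : (1 : ℝ) ≤ D := by exact_mod_cast hD
  have hD0 : (0 : ℝ) ≤ D := by linarith
  have hky0 : (0 : ℝ) ≤ ky := Nat.cast_nonneg _
  have hkyD' : (ky : ℝ) ≤ D := by exact_mod_cast hkyD
  have hy0 : 0 ≤ Real.sqrt ky := Real.sqrt_nonneg _
  have hy2 : Real.sqrt ky ^ 2 = ky := Real.sq_sqrt (Nat.cast_nonneg _)
  have hl52 : 0 ≤ (ℓ : ℝ) ^ (5 / 2 : ℝ) := by positivity
  have hDk : 0 ≤ (D : ℝ) * (kx : ℝ) ^ (3 / 2 : ℝ) := by positivity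
  have hDy : 0 ≤ (D : ℝ) ^ 2 * Real.sqrt ky := by positivity
  obtain ⟨N, hN⟩ : ∃ N : ℝ, N = U.card := ⟨_, rfl⟩
  obtain ⟨K, hK⟩ : ∃ K : ℝ, K = 4000000 * ((s : ℝ) + 4) ^ 3 := ⟨_, rfl⟩
  rw [← hK, ← hN] at hU
  have hKpos : 0 < K := by rw [hK]; positivity
  have hN1 : K * (F.edgeFinset.card : ℝ) ≤ N :=
    le_trans (mul_le_mul_of_nonneg_left (by linarith) hKpos.le) hU
  have hN2 : K * (ℓ : ℝ) ^ (5 / 2 : ℝ) ≤ N :=
    le_trans (mul_le_mul_of_nonneg_left (by linarith) hKpos.le) hU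
  have hN3 : K * ((D : ℝ) * (kx : ℝ) ^ (3 / 2 : ℝ)) ≤ N :=
    le_trans (mul_le_mul_of_nonneg_left (by linarith) hKpos.le) hU
  have hN4 : K * ((D : ℝ) ^ 2 * Real.sqrt ky) ≤ N :=
    le_trans (mul_le_mul_of_nonneg_left (by linarith) hKpos.le) hU
  have hNpos : 0 < N := lt_of_lt_of_le (by positivity) hN1
  obtain ⟨ν, hν⟩ : ∃ ν : ℝ, ν = N ^ (1 / 3 : ℝ) := ⟨_, rfl⟩
  have hν0 : 0 < ν := by rw [hν]; positivity
  have hν3 : ν ^ 3 = N := by rw [hν]; exact cube_third hNpos.le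
  obtain ⟨kt, hkt⟩ : ∃ kt : ℝ, kt = (ky : ℝ) ^ (1 / 3 : ℝ) := ⟨_, rfl⟩
  have hkt0 : 0 ≤ kt := by rw [hkt]; positivity
  have hkt3 : kt ^ 3 = ky := by rw [hkt]; exact cube_third hky0
  have hr0 : 0 ≤ Real.sqrt D * kt := by positivity
  have hNr := nu_num hs0 hK hr0 hν0.le hν3 ((mul_le_mul_of_nonneg_left
    (r_num hD0 hy0 (Real.sqrt_le_sqrt hkyD') (hkt3.trans hy2.symm)) hKpos.le).trans hN4)
  have hr2 : (Real.sqrt D * kt) ^ 2 = D * kt ^ 2 := by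
    rw [mul_pow, Real.sq_sqrt hD0]
  obtain ⟨c, hcdef⟩ : ∃ c : ℝ, c = 2000 * ((s : ℝ) + 4) ^ 2 := ⟨_, rfl⟩
  have hcpos : 0 < c := by rw [hcdef]; positivity
  obtain ⟨x, hx⟩ : ∃ x : ℝ, x = ((4 * D : ℕ) : ℝ) * Real.sqrt ky := ⟨_, rfl⟩
  have hx0 : 0 ≤ x := by rw [hx]; positivity
  obtain ⟨t, ht⟩ : ∃ t : ℝ, t = 64 * ((s : ℝ) + 1) * kt ^ 2 * ν := ⟨_, rfl⟩
  have ht0 : 0 ≤ t := by rw [ht]; positivity
  have hqle : ∀ j < Nat.log 2 D + 1, 2 ^ (j + 1) ≤ 4 * D := fun j hj =>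
    (single_le_sum (f := fun i => 2 ^ (i + 1)) (fun i _ => Nat.zero_le _)
      (mem_range.2 hj)).trans hb.sum_b
  have e3 : ∑ j ∈ range (Nat.log 2 D + 1), ((2 ^ (j + 1) : ℕ) : ℝ) ≤ 4 * D := by
    have := hb.sum_b
    exact_mod_cast this
  have hB0 : ∀ j : ℕ, 0 ≤ c * ((core F (2 ^ j)).card +
      (Real.sqrt ((if 2 ^ j < ℓ then max ℓ kx else kx : ℕ) : ℝ) ^ 3 + x)) + t := fun j => by
    positivity
  rw [← hS0]
  refine scale hc (B := fun j => c * ((core F (2 ^ j)).card +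
    (Real.sqrt ((if 2 ^ j < ℓ then max ℓ kx else kx : ℕ) : ℝ) ^ 3 + x)) + t)
    hB0 hNpos ?_ ?_ ?_ hN.le
  · intro j hj U' hU'U hU' hBj
    have hU'pos : (0 : ℝ) < U'.card := by exact_mod_cast card_pos.2 hU'
    have hBB := (le_div_iff₀ hU'pos).2 hBj
    have hU'N : (U'.card : ℝ) ≤ N := by
      rw [hN]; exact_mod_cast card_le_card hU'U
    have hh0 : (0 : ℝ) ≤ ((core F (2 ^ j)).card : ℝ) := Nat.cast_nonneg _
    obtain ⟨k, hk⟩ : ∃ k : ℕ, k = if 2 ^ j < ℓ then max ℓ kx else kx := ⟨_, rfl⟩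
    rw [← hk] at hBB
    have ha0 : 0 ≤ Real.sqrt (k : ℝ) ^ 3 := by positivity
    obtain ⟨B', hB'⟩ : ∃ B' : ℝ, B' = (e2 R U' : ℝ) / U'.card := ⟨_, rfl⟩
    rw [← hB'] at hBB
    have hBsum : 2000 * ((s : ℝ) + 4) ^ 2 * ((core F (2 ^ j)).card +
        (Real.sqrt (k : ℝ) ^ 3 + x)) ≤ B' := by
      rw [← hcdef]
      linarith
    have hBt : 64 * ((s : ℝ) + 1) * kt ^ 2 * ν ≤ B' := by
      rw [← ht]
      have : 0 ≤ c * ((core F (2 ^ j)).card + (Real.sqrt (k : ℝ) ^ 3 + x)) := by positivity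
      linarith
    refine loc3 hR hc hqle hU' j hj.le (by omega) (B := B') ?_
      (X := core F (2 ^ j) \ (core F (2 ^ j) ∩ (Y ∩ core F ℓ)))
      (Y := core F (2 ^ j) ∩ (Y ∩ core F ℓ)) ?_ (a := k) (b := ky)
      ?_ ?_ ?_ ?_ ?_ ?_ ?_
    · rw [hB', div_mul_cancel₀ _ hU'pos.ne']
    · rw [union_sdiff_of_subset inter_subset_left]
    · by_cases hjl : 2 ^ j < ℓ
      · rw [hk, if_pos hjl]
        exact degen_rest hXY hX _
      · rw [hk, if_neg hjl]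
        exact degen_rest' hXY hX (core_anti F (not_lt.1 hjl))
    · exact hY.mono (inter_subset_right.trans inter_subset_left)
    · exact hB1_num hs0 hh0 (by positivity) hBsum
    · exact hBa_num hs0 hh0 hx0 hBsum
    · rw [hx] at hBsum
      refine hc1_num hs0 hh0 ha0 hy0 hy2 (Nat.cast_nonneg _) ?_ hBsum
      push_cast
      linarith
    · exact hc2_num hs0 hh0 hx0 (Real.sqrt_nonneg _) (Real.sq_sqrt (Nat.cast_nonneg _)) hBsum
    · exact hc3_num hs0 hkt0 hν0.le hkt3 hν3 hU'N hBt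
  · have h1 : ((core F (2 ^ 0)).card : ℝ) ≤ 8 * (F.edgeFinset.card : ℝ) := hb.card0
    have h2 : 64 * (F.edgeFinset.card : ℝ) ≤ K * (F.edgeFinset.card : ℝ) := by
      apply mul_le_mul_of_nonneg_right _ (by linarith)
      rw [hK]
      have : (1 : ℝ) ≤ ((s : ℝ) + 4) ^ 3 := one_le_pow₀ (by linarith)
      linarith
    have h3 : 8 * (F.edgeFinset.card : ℝ) ≤ N / 8 := by linarith
    exact h1.trans h3
  · -- the sum
    have e1 : ∑ j ∈ range (Nat.log 2 D + 1), ((2 ^ (j + 1) : ℕ) : ℝ) *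
        (c * ((core F (2 ^ j)).card +
          (Real.sqrt ((if 2 ^ j < ℓ then max ℓ kx else kx : ℕ) : ℝ) ^ 3 + x)) + t) = c *
        (∑ j ∈ range (Nat.log 2 D + 1), ((2 ^ (j + 1) : ℕ) : ℝ) * (core F (2 ^ j)).card) +
        c * (∑ j ∈ range (Nat.log 2 D + 1), ((2 ^ (j + 1) : ℕ) : ℝ) *
          Real.sqrt ((if 2 ^ j < ℓ then max ℓ kx else kx : ℕ) : ℝ) ^ 3) +
        c * x * (∑ j ∈ range (Nat.log 2 D + 1), ((2 ^ (j + 1) : ℕ) : ℝ)) +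
        t * ∑ j ∈ range (Nat.log 2 D + 1), ((2 ^ (j + 1) : ℕ) : ℝ) := by
      rw [mul_sum, mul_sum, mul_sum, mul_sum, ← sum_add_distrib, ← sum_add_distrib,
        ← sum_add_distrib]
      refine sum_congr rfl fun j _ => ?_
      ring
    refine le_trans (le_of_eq e1) ?_
    refine sum_num hs0 hK hcdef (by linarith) hl52 hDk hDy hx0 ht0 hN1 hN2 hN3 hN4 hb.sum_bS
      (sum_alpha e3) e3 ?_ ?_
    · rw [hx]; push_cast; ring
    · rw [ht]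
      rw [hr2] at hNr
      linarith

/-- The bound for the Ramsey number. -/
theorem arrows_two (s : ℕ) {A : Type*} {G : SimpleGraph A} (hG : G.IsContained (Kp s))
    [Fintype W] (F : SimpleGraph W) (hm : 1 ≤ F.edgeFinset.card) (hF : ∀ w, 1 ≤ F.degree w)
    {D : ℕ} (hD : 1 ≤ D) (hFD : Degen F D) {ℓ kx ky : ℕ} {X Y : Finset W}
    (hXY : core F ℓ ⊆ X ∪ Y) (hX : DegenOn F X kx) (hY : DegenOn F Y ky) (N : ℕ)
    (hN : 4000000 * ((s : ℝ) + 4) ^ 3 * ((F.edgeFinset.card : ℝ) + (ℓ : ℝ) ^ (5 / 2 : ℝ) +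
      (D : ℝ) * (kx : ℝ) ^ (3 / 2 : ℝ) + (D : ℝ) ^ 2 * Real.sqrt ky) ≤ N) : Arrows N G F := by
  intro R
  by_cases hGR : G.IsContained R
  · exact Or.inl hGR
  · right
    have hR : FewCommon R s := fewCommon_of_free (fun h => hGR (hG.trans h))
    have hY' : DegenOn F Y (min ky D) := by
      rcases le_total ky D with h | h
      · rw [min_eq_left h]; exact hY
      · rw [min_eq_right h]; exact fun T _ hT => hFD T hT
    refine contained_of_blueEmb (U := (univ : Finset (Fin N)))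
      (emb_two hR F hm hF hD hFD (min_le_right ky D) hXY hX hY' ?_)
    rw [card_univ, Fintype.card_fin]
    refine le_trans ?_ hN
    have h1 : Real.sqrt ((min ky D : ℕ) : ℝ) ≤ Real.sqrt ky :=
      Real.sqrt_le_sqrt (by exact_mod_cast min_le_left ky D)
    gcongr

end Pool.Agent.helper43.Rsl2
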