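import Pool.Agent.helper60.Rsl.Final

/-! A local lemma with two degenerate parts: one part is placed in the neighbourhood of a vertex
`a`, the other one in the set `TT a` of the vertices forming a diamond with `a`. The roles of the
parts depend on the red density of the neighbourhood of `a`. -/

namespace Pool.Agent.helper43.Rsl2

open Finset Pool.Agent.helper60.Rsl
open scoped Classical

variable {V W : Type*} {R : SimpleGraph V} {F : SimpleGraph W}

/-- `F[T]` is `k`-degenerate: every non-empty subset `T'` of `T` contains a vertex with at most `k`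
neighbours in `T'`. -/
def DegenOn (F : SimpleGraph W) (T : Finset W) (k : ℕ) : Prop :=
  ∀ T' ⊆ T, T'.Nonempty → ∃ w ∈ T', (T'.filter (fun y => F.Adj w y)).card ≤ k

theorem DegenOn.mono {T T' : Finset W} {k : ℕ} (h : DegenOn F T k) (hT : T' ⊆ T) :
    DegenOn F T' k := fun T'' h1 h2 => h T'' (h1.trans hT) h2

theorem DegenOn.le {T : Finset W} {k l : ℕ} (h : DegenOn F T k) (hkl : k ≤ l) :
    DegenOn F T l := by
  intro T' h1 h2
  obtain ⟨w, hw, hk⟩ := h T' h1 h2
  exact ⟨w, hw, hk.trans hkl⟩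

/-- Greedy embedding of a degenerate piece. -/
theorem emb_degen {T : Finset W} {k : ℕ} (hT : DegenOn F T k) {Q : Finset V} (hQ : Q.Nonempty)
    (h4 : 4 * T.card ≤ Q.card) (he : 16 * (k : ℝ) * e2 R Q < (Q.card : ℝ) ^ 2) :
    BlueEmb R F T Q := by
  have hb : ∀ T', ∅ ⊂ T' → T' ⊆ T →
      ∃ w ∈ T', w ∉ (∅ : Finset W) ∧ (T'.filter (fun w' => F.Adj w w')).card ≤ k := by
    intro T' h1 h2
    obtain ⟨w, hw, hwk⟩ := hT T' h2 (by rwa [empty_ssubset] at h1)
    exact ⟨w, hw, notMem_empty _, hwk⟩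
  have hQpos : 0 < Q.card := card_pos.2 hQ
  have hQ0 : (0 : ℝ) < Q.card := by exact_mod_cast hQpos
  rcases Nat.eq_zero_or_pos k with h0 | h0
  · subst h0
    refine BlueEmb.extend (D := (Q.card : ℝ)) (b := 0) (empty_subset _) (blueEmb_empty hQ)
      (Nat.cast_nonneg _) hb ?_ ?_
    · intro x _
      exact_mod_cast card_le_card (nb_subset R Q x)
    · have h5 : T.card < Q.card := by omega
      rw [Nat.cast_zero, zero_mul, add_zero]
      exact_mod_cast h5
  · have hk1 : (1 : ℝ) ≤ k := by exact_mod_cast h0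
    set D : ℝ := Q.card / (8 * k) with hD
    have hDpos : 0 < D := by positivity
    set X := Q.filter (fun x => D < ((nb R Q x).card : ℝ)) with hX
    set Q2 := Q \ X with hQ2
    have hXcard : (X.card : ℝ) < Q.card / 2 := by
      have h1 := trim R Q D
      have h2 : (X.card : ℝ) * D < Q.card / 2 * D := by
        refine lt_of_le_of_lt h1 ?_
        have h3 : (Q.card : ℝ) / 2 * D = Q.card ^ 2 / (16 * k) := by
          rw [hD]; field_simp; ring
        rw [h3, lt_div_iff₀ (by positivity)]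
        linarith
      exact lt_of_mul_lt_mul_right h2 hDpos.le
    have hQ2card : (Q2.card : ℝ) = Q.card - X.card := by
      rw [hQ2, card_sdiff_of_subset (filter_subset _ _), Nat.cast_sub
        (card_le_card (filter_subset _ _))]
    have hQ2ne : Q2.Nonempty := by
      rw [← card_pos]
      have : (0 : ℝ) < Q2.card := by rw [hQ2card]; linarith
      exact_mod_cast this
    refine BlueEmb.mono (U := Q2) ?_ Subset.rfl sdiff_subset
    refine BlueEmb.extend (D := D) (b := k) (empty_subset _) (blueEmb_empty hQ2ne)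
      hDpos.le hb ?_ ?_
    · intro x hx
      rw [hQ2, mem_sdiff, hX, mem_filter, not_and, not_lt] at hx
      have h1 := hx.2 hx.1
      refine le_trans ?_ h1
      exact_mod_cast card_le_card (nb_mono (R := R) (sdiff_subset : Q \ X ⊆ Q) x)
    · have h5 : (k : ℝ) * D = Q.card / 8 := by
        rw [hD]; field_simp
      have h6 : (4 : ℝ) * T.card ≤ Q.card := by exact_mod_cast h4
      rw [h5, hQ2card]
      linarith

/-- Union of two embeddings. -/
theorem union_emb {S T : Finset W} {U Z : Finset V} {f : W → V} (h1 : ∀ w ∈ S, f w ∈ U)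
    (h2 : Set.InjOn f (S : Set W)) (h3 : ∀ w ∈ S, ∀ w' ∈ S, F.Adj w w' → ¬ R.Adj (f w) (f w'))
    (hZU : Z ⊆ U) (hZ : BlueEmb R F T Z) (hZf : ∀ w ∈ S, f w ∉ Z)
    (hZR : ∀ w ∈ S, ∀ z ∈ Z, ¬ R.Adj (f w) z) : BlueEmb R F (S ∪ T) U := by
  obtain ⟨g, g1, g2, g3⟩ := hZ
  have key : ∀ w ∈ S ∪ T, w ∉ S → w ∈ T := fun w hw hS => (mem_union.1 hw).resolve_left hS
  refine ⟨fun w => if w ∈ S then f w else g w, ?_, ?_, ?_⟩
  · intro w hw
    by_cases hS : w ∈ S
    · simp only [if_pos hS]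
      exact h1 w hS
    · simp only [if_neg hS]
      exact hZU (g1 w (key w hw hS))
  · intro w hw w' hw' heq
    have hw1 : w ∈ S ∪ T := by exact_mod_cast hw
    have hw2 : w' ∈ S ∪ T := by exact_mod_cast hw'
    by_cases hS : w ∈ S <;> by_cases hS' : w' ∈ S
    · simp only [if_pos hS, if_pos hS'] at heq
      exact h2 (by exact_mod_cast hS) (by exact_mod_cast hS') heq
    · simp only [if_pos hS, if_neg hS'] at heq
      exact absurd (heq ▸ g1 w' (key w' hw2 hS')) (hZf w hS)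
    · simp only [if_neg hS, if_pos hS'] at heq
      exact absurd (heq.symm ▸ g1 w (key w hw1 hS)) (hZf w' hS')
    · simp only [if_neg hS, if_neg hS'] at heq
      exact g2 (by exact_mod_cast key w hw1 hS) (by exact_mod_cast key w' hw2 hS') heq
  · intro w hw w' hw' ha
    by_cases hS : w ∈ S <;> by_cases hS' : w' ∈ S
    · simp only [if_pos hS, if_pos hS']
      exact h3 w hS w' hS' ha
    · simp only [if_pos hS, if_neg hS']
      exact hZR w hS _ (g1 w' (key w' hw' hS'))
    · simp only [if_neg hS, if_pos hS']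
      exact fun h => hZR w' hS' _ (g1 w (key w hw hS)) h.symm
    · simp only [if_neg hS, if_neg hS']
      exact g3 w (key w hw hS) w' (key w' hw' hS') ha

theorem e2_le (R : SimpleGraph V) (U : Finset V) : (e2 R U : ℝ) ≤ (U.card : ℝ) ^ 2 := by
  have : e2 R U ≤ U.card ^ 2 := by
    rw [e2, pow_two]
    calc ∑ x ∈ U, (nb R U x).card ≤ ∑ _x ∈ U, U.card :=
          sum_le_sum fun x _ => card_le_card (nb_subset R U x)
      _ = U.card * U.card := by rw [sum_const, smul_eq_mul]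
  exact_mod_cast this

theorem e2_mono (R : SimpleGraph V) {Q U : Finset V} (h : Q ⊆ U) : (e2 R Q : ℝ) ≤ e2 R U := by
  have : e2 R Q ≤ e2 R U := by
    rw [e2, e2]
    exact (sum_le_sum fun x _ => card_le_card (nb_mono h x)).trans
      (sum_le_sum_of_subset h)
  exact_mod_cast this

/-- The moment inequality. -/
theorem moment {s : ℕ} (hR : FewCommon R s) {U A : Finset V} (hA : A ⊆ U)
    (hX : 2 * (e2 R U : ℝ) ≤ ∑ a ∈ A, (e2 R (nb R U a) : ℝ)) :
    (∑ a ∈ A, (e2 R (nb R U a) : ℝ)) ^ 2 ≤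
      2 * e2 R U * (((s : ℝ) + 1) ^ 2 * ∑ a ∈ A, ((TT R U a).card : ℝ)) := by
  set X : ℝ := ∑ a ∈ A, (e2 R (nb R U a) : ℝ) with hXd
  set E : ℝ := (e2 R U : ℝ) with hE
  have hE0 : 0 ≤ E := Nat.cast_nonneg _
  have h5 : X = ∑ u ∈ U, ∑ v ∈ nb R U u,
      ((A.filter (fun a => R.Adj a u ∧ R.Adj a v)).card : ℝ) := by
    rw [hXd]
    have := sum_e2 (R := R) U A
    exact_mod_cast this
  have h6 : X ^ 2 ≤ E * ∑ u ∈ U, ∑ v ∈ nb R U u,
      ((A.filter (fun a => R.Adj a u ∧ R.Adj a v)).card : ℝ) ^ 2 := by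
    have hcs := sq_sum_le_card_mul_sum_sq (s := U.sigma (fun u => nb R U u))
      (f := fun z => ((A.filter (fun a => R.Adj a z.1 ∧ R.Adj a z.2)).card : ℝ))
    rw [sum_sigma, sum_sigma, card_sigma] at hcs
    rw [h5, hE, e2]
    exact hcs
  have h7 : ∑ u ∈ U, ∑ v ∈ nb R U u,
      ((A.filter (fun a => R.Adj a u ∧ R.Adj a v)).card : ℝ) ^ 2 ≤
      X + ((s : ℝ) + 1) ^ 2 * ∑ a ∈ A, ((TT R U a).card : ℝ) := by
    rw [h5]
    have := sum_sq hR U A hA
    exact_mod_cast this
  set TA : ℝ := ((s : ℝ) + 1) ^ 2 * ∑ a ∈ A, ((TT R U a).card : ℝ) with hTA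
  have h8 : X ^ 2 ≤ E * (X + TA) := h6.trans (mul_le_mul_of_nonneg_left h7 hE0)
  have hX0 : 0 ≤ X := by linarith
  have h9 : E * X ≤ X ^ 2 / 2 := by nlinarith
  linarith

/-- A degenerate piece embeds into a large set. -/
theorem emb_large {s : ℕ} (hR : FewCommon R s) {Y : Finset W} {b : ℕ} (hY : DegenOn F Y b)
    {h : ℝ} (hh1 : 1 ≤ h) (hYh : (Y.card : ℝ) ≤ h) {T : Finset V} (hT4 : 4 * h ≤ T.card)
    (hT1 : 2048 * ((s : ℝ) + 4) * b * h ≤ T.card)
    (hT2 : 12100 * ((s : ℝ) + 1) ^ 2 * Real.sqrt b ^ 5 ≤ T.card) : BlueEmb R F Y T := by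
  have hs0 : (0 : ℝ) ≤ s := Nat.cast_nonneg _
  rcases Nat.eq_zero_or_pos b with h0 | h0
  · subst h0
    have hTpos : (0 : ℝ) < T.card := by linarith
    refine emb_degen hY (card_pos.1 (by exact_mod_cast hTpos)) ?_ ?_
    · have : (4 : ℝ) * Y.card ≤ T.card := by linarith
      exact_mod_cast this
    · rw [Nat.cast_zero, mul_zero, zero_mul]
      positivity
  · have hb1 : (1 : ℝ) ≤ b := by exact_mod_cast h0
    have hb0 : (0 : ℝ) ≤ b := by linarith
    have hc : Chain F 1 (fun j => if j = 0 then Y else ∅) (fun _ => b) := by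
      refine ⟨fun j => ?_, ?_, ?_, ?_⟩
      · simp
      · simp
      · intro j hj T' h1 h2
        have hj0 : j = 0 := by omega
        subst hj0
        simp only [zero_add, one_ne_zero, if_false] at h1
        simp only [if_true] at h2
        obtain ⟨w, hw, hwk⟩ := hY T' h2 (by rwa [empty_ssubset] at h1)
        exact ⟨w, hw, by simp, hwk⟩
      · intro j _
        exact h0
    have hb : Bd 1 (fun j => if j = 0 then Y else ∅) (fun _ => b) b (b * h) := by
      refine ⟨by simp, ?_, ?_⟩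
      · simp only [if_true]
        nlinarith
      · simp only [range_one, sum_singleton, if_true]
        exact mul_le_mul_of_nonneg_left hYh hb0
    have hmain := general hR h0 (by positivity : 0 < (b : ℝ) * h) hc hb (U := T) ?_ ?_
    · simpa using hmain
    · refine le_trans (le_of_eq ?_) hT1
      ring
    · refine le_trans (le_of_eq ?_) hT2
      congr 1
      rw [Real.sqrt_eq_rpow, ← Real.rpow_natCast, ← Real.rpow_mul hb0]
      norm_num

/-- A vertex with large `TT`. -/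
theorem exists_tip2 {s : ℕ} (hR : FewCommon R s) {U A : Finset V} (hU : U.Nonempty) (hA : A ⊆ U)
    {B c : ℝ} (hB : 0 < B) (hEB : (e2 R U : ℝ) = B * U.card) (hc : 0 < c) (hBc : 8 * c ≤ B)
    (hsum : (e2 R U : ℝ) * B / 4 ≤ ∑ a ∈ A, ((nb R U a).card : ℝ) ^ 2)
    (hden : ∀ a ∈ A, ((nb R U a).card : ℝ) ^ 2 ≤ c * e2 R (nb R U a)) :
    ∃ a ∈ A, B ^ 3 ≤ 32 * ((s : ℝ) + 1) ^ 2 * c ^ 2 * (TT R U a).card := by
  have hs0 : (0 : ℝ) ≤ s := Nat.cast_nonneg _
  have hUpos : (0 : ℝ) < U.card := by exact_mod_cast card_pos.2 hU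
  set E : ℝ := (e2 R U : ℝ) with hE
  have hEpos : 0 < E := by rw [hEB]; positivity
  set X : ℝ := ∑ a ∈ A, (e2 R (nb R U a) : ℝ) with hX
  have h1 : E * B ≤ 4 * c * X := by
    have h2 : ∑ a ∈ A, ((nb R U a).card : ℝ) ^ 2 ≤ c * X := by
      rw [hX, mul_sum]
      exact sum_le_sum hden
    linarith
  have h2 : 2 * E ≤ X := by
    have h3 : 4 * c * (2 * E) ≤ 4 * c * X := by nlinarith
    exact le_of_mul_le_mul_left h3 (by positivity)
  have h3 := moment hR hA h2
  rw [← hX] at h3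
  set TA : ℝ := ((s : ℝ) + 1) ^ 2 * ∑ a ∈ A, ((TT R U a).card : ℝ) with hTA
  have h4 : E * B ^ 2 ≤ 32 * c ^ 2 * TA := by
    have e1 : (E * B) ^ 2 ≤ (4 * c * X) ^ 2 := pow_le_pow_left₀ (by positivity) h1 2
    have e2 : (4 * c * X) ^ 2 = 16 * c ^ 2 * X ^ 2 := by ring
    rw [e2] at e1
    have e3 : 16 * c ^ 2 * X ^ 2 ≤ 16 * c ^ 2 * (2 * E * TA) :=
      mul_le_mul_of_nonneg_left h3 (by positivity)
    have e4 : E * (E * B ^ 2) ≤ E * (32 * c ^ 2 * TA) := by
      calc E * (E * B ^ 2) = (E * B) ^ 2 := by ring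
        _ ≤ 16 * c ^ 2 * (2 * E * TA) := e1.trans e3
        _ = _ := by ring
    exact le_of_mul_le_mul_left e4 hEpos
  by_contra hcon
  push Not at hcon
  have h13 : 32 * c ^ 2 * TA = ∑ a ∈ A, 32 * ((s : ℝ) + 1) ^ 2 * c ^ 2 * (TT R U a).card := by
    rw [hTA, ← mul_sum]; ring
  have h14 : B ^ 3 * U.card ≤ 32 * c ^ 2 * TA := by
    refine le_trans (le_of_eq ?_) h4
    rw [hEB]; ring
  rcases A.eq_empty_or_nonempty with hAe | hAne
  · rw [h13, hAe, sum_empty] at h14
    have : 0 < B ^ 3 * U.card := by positivity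
    linarith
  · have h15 : 32 * c ^ 2 * TA < ∑ a ∈ A, B ^ 3 := by
      rw [h13]
      exact sum_lt_sum_of_nonempty hAne hcon
    rw [sum_const, nsmul_eq_mul] at h15
    have h16 : (A.card : ℝ) * B ^ 3 ≤ U.card * B ^ 3 := by
      apply mul_le_mul_of_nonneg_right _ (by positivity)
      exact_mod_cast card_le_card hA
    linarith

/-- Placement of two parts: `Y` in `TT a`, `X` in the neighbourhood of `a`. -/
theorem place {s : ℕ} (hR : FewCommon R s) {U : Finset V} {a : V} {X Y : Finset W} {k : ℕ}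
    (hX : DegenOn F X k) {h : ℝ} (hh1 : 1 ≤ h) (hXh : (X.card : ℝ) ≤ h) (hYh : (Y.card : ℝ) ≤ h)
    (hY : BlueEmb R F Y (TT R U a)) (hN : 8 * ((s : ℝ) + 4) * h ≤ (nb R U a).card)
    (hsp : 64 * (k : ℝ) * e2 R (nb R U a) < ((nb R U a).card : ℝ) ^ 2) :
    BlueEmb R F (Y ∪ X) U := by
  have hs0 : (0 : ℝ) ≤ s := Nat.cast_nonneg _
  obtain ⟨f, f1, f2, f3⟩ := hY
  set N : ℝ := ((nb R U a).card : ℝ) with hNdef
  set Rm := Y.image f ∪ Y.biUnion (fun w => U.filter (fun z => R.Adj a z ∧ R.Adj (f w) z)) with hRm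
  set Z := nb R U a \ Rm with hZ
  have hZU : Z ⊆ nb R U a := sdiff_subset
  have hZcard : N / 2 ≤ Z.card := by
    have e1 : (nb R U a).card ≤ Z.card + Rm.card := by
      have := le_card_sdiff Rm (nb R U a)
      rw [← hZ] at this
      omega
    have e2 : (Y.biUnion (fun w => U.filter (fun z => R.Adj a z ∧ R.Adj (f w) z))).card ≤
        Y.card * (s + 1) := by
      apply card_biUnion_le_card_mul
      intro w hw
      have h3 := (mem_filter.1 (f1 w hw)).2
      obtain ⟨h4, u, -, v, -, h5, h6, h7, h8, h9⟩ := h3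
      exact hR U a (f w) u v h4.symm h5 h6 h7 h8 h9
    have e3 : (Y.image f).card ≤ Y.card := card_image_le
    have e4 : Rm.card ≤ Y.card * (s + 2) := by
      have := card_union_le (Y.image f) (Y.biUnion (fun w => U.filter
        (fun z => R.Adj a z ∧ R.Adj (f w) z)))
      rw [← hRm] at this
      have e5 : Y.card * (s + 2) = Y.card + Y.card * (s + 1) := by ring
      omega
    have e5 : N ≤ Z.card + Y.card * ((s : ℝ) + 2) := by
      have : (nb R U a).card ≤ Z.card + Y.card * (s + 2) := e1.trans (by omega)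
      have h6 : ((nb R U a).card : ℝ) ≤ ((Z.card + Y.card * (s + 2) : ℕ) : ℝ) := by
        exact_mod_cast this
      push_cast at h6
      exact h6
    have e6 : (Y.card : ℝ) * ((s : ℝ) + 2) ≤ N / 2 := by
      have : (Y.card : ℝ) * ((s : ℝ) + 2) ≤ h * ((s : ℝ) + 4) :=
        mul_le_mul hYh (by linarith) (by positivity) (by linarith)
      have h8 : 0 ≤ ((s : ℝ) + 4) * h := by positivity
      linarith
    linarith
  have hN32 : 32 * h ≤ N := by nlinarith
  have hZpos : (0 : ℝ) < Z.card := by linarith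
  have hZne : Z.Nonempty := by
    rw [← card_pos]; exact_mod_cast hZpos
  have hembX : BlueEmb R F X Z := by
    refine emb_degen hX hZne ?_ ?_
    · have : (4 : ℝ) * X.card ≤ Z.card := by linarith
      exact_mod_cast this
    · have i1 := e2_mono R hZU
      have i2 : (N / 2) ^ 2 ≤ (Z.card : ℝ) ^ 2 := pow_le_pow_left₀ (by positivity) hZcard 2
      have i3 : 16 * (k : ℝ) * e2 R Z ≤ 16 * k * e2 R (nb R U a) :=
        mul_le_mul_of_nonneg_left i1 (by positivity)
      have i4 : (N / 2) ^ 2 = N ^ 2 / 4 := by ring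
      rw [i4] at i2
      linarith
  refine union_emb (f := f) (fun w hw => (mem_filter.1 (f1 w hw)).1) f2 f3
    (hZU.trans (nb_subset R U a)) hembX ?_ ?_
  · intro w hw h
    rw [hZ, mem_sdiff, hRm, mem_union, not_or] at h
    exact h.2.1 (mem_image_of_mem f hw)
  · intro w hw z hz h
    rw [hZ, mem_sdiff, hRm, mem_union, not_or] at hz
    apply hz.2.2
    rw [mem_biUnion]
    exact ⟨w, hw, mem_filter.2 ⟨(mem_nb.1 hz.1).1, (mem_nb.1 hz.1).2, h⟩⟩

/-- The local lemma with two degenerate parts. -/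
theorem loc3 {s : ℕ} (hR : FewCommon R s) {J : ℕ} {S : ℕ → Finset W} {β : ℕ → ℕ}
    (hc : Chain F J S β) {q : ℕ} (hq : ∀ j < J, β j ≤ q) {U : Finset V} (hU : U.Nonempty) (j : ℕ)
    (hj : j ≤ J) (hq1 : 1 ≤ q) {B : ℝ} (hEB : (e2 R U : ℝ) = B * U.card)
    {X Y : Finset W} (hXY : S j = Y ∪ X) {a b : ℕ} (hX : DegenOn F X a) (hY : DegenOn F Y b)
    (hB1 : 128 * ((s : ℝ) + 4) * (S j).card ≤ B)
    (hBa : 512 * (a : ℝ) ≤ B)
    (hc1 : 8192 * ((s : ℝ) + 1) ^ 2 * (q : ℝ) ^ 2 * (2048 * ((s : ℝ) + 4) * b * (S j).card +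
      12100 * ((s : ℝ) + 1) ^ 2 * Real.sqrt b ^ 5) ≤ B ^ 3)
    (hc2 : 131072 * ((s : ℝ) + 1) ^ 2 * (a : ℝ) ^ 2 * (2048 * ((s : ℝ) + 4) * a * (S j).card +
      12100 * ((s : ℝ) + 1) ^ 2 * Real.sqrt a ^ 5) ≤ B ^ 3)
    (hc3 : 262144 * ((s : ℝ) + 1) ^ 2 * (b : ℝ) ^ 2 * U.card ≤ B ^ 3) :
    BlueEmb R F (S j) U := by
  by_contra hn
  have hSpos : 1 ≤ (S j).card := by
    by_contra h0
    have : S j = ∅ := by
      rw [← card_eq_zero]; omega
    rw [this] at hn
    exact hn (blueEmb_empty hU)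
  have hmin : 1 ≤ min q (S j).card := le_min hq1 hSpos
  set h : ℝ := ((S j).card : ℝ) with hh
  set m : ℝ := ((min q (S j).card : ℕ) : ℝ) with hmdef
  have hm1 : (1 : ℝ) ≤ m := by rw [hmdef]; exact_mod_cast hmin
  have hmh : m ≤ h := by
    rw [hmdef, hh]; exact_mod_cast min_le_right _ _
  have hmq : m ≤ q := by
    rw [hmdef]; exact_mod_cast min_le_left _ _
  have hs0 : (0 : ℝ) ≤ s := Nat.cast_nonneg _
  have hs1 : (1 : ℝ) ≤ ((s : ℝ) + 1) ^ 2 := one_le_pow₀ (by linarith)
  have hh1 : 1 ≤ h := hm1.trans hmh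
  have hUpos : (0 : ℝ) < U.card := by exact_mod_cast card_pos.2 hU
  have hB512 : 512 * h ≤ B := by nlinarith
  have hBpos : 0 < B := by linarith
  have hBU : B ≤ U.card := by
    have h1 := e2_le R U
    rw [hEB, pow_two] at h1
    exact le_of_mul_le_mul_right h1 hUpos
  have hYc : (Y.card : ℝ) ≤ h := by
    rw [hh, hXY]; exact_mod_cast card_le_card subset_union_left
  have hXc : (X.card : ℝ) ≤ h := by
    rw [hh, hXY]; exact_mod_cast card_le_card subset_union_right
  set θ : ℝ := 8 * ((s : ℝ) + 4) * h with hθ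
  have hθ32 : 32 * h ≤ θ := by rw [hθ]; nlinarith
  have hθ0 : 0 < θ := by linarith
  have hθB : 4 * θ ≤ B := by rw [hθ]; nlinarith
  set N : V → ℝ := fun a => ((nb R U a).card : ℝ) with hN
  set E : ℝ := (e2 R U : ℝ) with hE
  have hEsum : E = ∑ x ∈ U, N x := by rw [hE, e2]; push_cast; rfl
  have hEpos : 0 < E := by rw [hEB]; positivity
  -- second moment of the degrees
  have h1 : E * B ≤ ∑ x ∈ U, N x ^ 2 := by
    have hcs := sq_sum_le_card_mul_sum_sq (s := U) (f := N)
    rw [← hEsum] at hcs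
    have h3 : (U.card : ℝ) * (E * B) ≤ U.card * ∑ x ∈ U, N x ^ 2 := by
      refine le_trans (le_of_eq ?_) hcs
      rw [pow_two]
      nth_rewrite 2 [hEB]
      ring
    exact le_of_mul_le_mul_left h3 hUpos
  set A := U.filter (fun x => θ ≤ N x) with hA
  have hAU : A ⊆ U := filter_subset _ _
  have h2 : ∑ x ∈ U \ A, N x ^ 2 ≤ E * B / 4 := by
    have h3 : ∑ x ∈ U \ A, N x ^ 2 ≤ ∑ x ∈ U \ A, θ * N x := by
      apply sum_le_sum
      intro x hx
      rw [mem_sdiff, hA, mem_filter, not_and, not_le] at hx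
      have h4 := (hx.2 hx.1).le
      rw [pow_two]
      exact mul_le_mul_of_nonneg_right h4 (Nat.cast_nonneg _)
    have h4 : ∑ x ∈ U \ A, θ * N x ≤ θ * E := by
      rw [← mul_sum, hEsum]
      apply mul_le_mul_of_nonneg_left _ (by positivity)
      exact sum_le_sum_of_subset_of_nonneg sdiff_subset fun _ _ _ => Nat.cast_nonneg _
    have h5 : θ * E ≤ E * B / 4 := by nlinarith
    linarith
  have hAsum : 3 * (E * B / 4) ≤ ∑ x ∈ A, N x ^ 2 := by
    have e1 := sum_sdiff (f := fun x => N x ^ 2) hAU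
    linarith
  -- the three classes
  set A1 := A.filter (fun x => 64 * (a : ℝ) * e2 R (nb R U x) < N x ^ 2) with hA1
  set A' := A.filter (fun x => ¬ 64 * (a : ℝ) * e2 R (nb R U x) < N x ^ 2) with hA'
  set A2 := A'.filter (fun x => 64 * (b : ℝ) * e2 R (nb R U x) < N x ^ 2) with hA2
  set A3 := A'.filter (fun x => ¬ 64 * (b : ℝ) * e2 R (nb R U x) < N x ^ 2) with hA3
  have hA1U : A1 ⊆ U := (filter_subset _ _).trans hAU
  have hA2U : A2 ⊆ U := (filter_subset _ _).trans ((filter_subset _ _).trans hAU)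
  have hA3U : A3 ⊆ U := (filter_subset _ _).trans ((filter_subset _ _).trans hAU)
  have hsplit : ∑ x ∈ A1, N x ^ 2 + (∑ x ∈ A2, N x ^ 2 + ∑ x ∈ A3, N x ^ 2) =
      ∑ x ∈ A, N x ^ 2 := by
    have e1 := sum_filter_add_sum_filter_not A
      (fun x => 64 * (a : ℝ) * e2 R (nb R U x) < N x ^ 2) (fun x => N x ^ 2)
    have e2 := sum_filter_add_sum_filter_not A'
      (fun x => 64 * (b : ℝ) * e2 R (nb R U x) < N x ^ 2) (fun x => N x ^ 2)
    rw [← hA1, ← hA'] at e1
    rw [← hA2, ← hA3] at e2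
    linarith
  have hAθ : ∀ x ∈ A, θ ≤ N x := fun x hx => (mem_filter.1 hx).2
  by_cases hcase1 : E * B / 4 ≤ ∑ x ∈ A1, N x ^ 2
  · -- sparse links: `X` in the neighbourhood
    obtain ⟨x, hxA, hxT⟩ := exists_tip2 hR hU hA1U hBpos hEB (c := 16 * m) (by positivity)
      (by linarith) hcase1 (fun x hx => by
        apply many_edges hc hq j hj ?_ hmin
        · exact fun h => hn (h.mono Subset.rfl (nb_subset R U x))
        · have h6 : (4 : ℝ) * (S j).card ≤ (nb R U x).card := by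
            refine le_trans ?_ (hAθ x (mem_filter.1 hx).1)
            rw [← hh]; linarith
          exact_mod_cast h6)
    have hρ : 32 * ((s : ℝ) + 1) ^ 2 * (16 * m) ^ 2 = 8192 * ((s : ℝ) + 1) ^ 2 * m ^ 2 := by ring
    rw [hρ] at hxT
    set ρ : ℝ := 8192 * ((s : ℝ) + 1) ^ 2 * m ^ 2 with hρd
    have hρpos : 0 < ρ := by positivity
    have hρq : ρ ≤ 8192 * ((s : ℝ) + 1) ^ 2 * (q : ℝ) ^ 2 := by
      rw [hρd]; gcongr
    have hT4 : 4 * h ≤ (TT R U x).card := by
      have e1 : ρ * (4 * h) ≤ B ^ 3 := by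
        have e2 : (128 * ((s : ℝ) + 4) * h) ^ 3 ≤ B ^ 3 := pow_le_pow_left₀ (by positivity) hB1 3
        refine le_trans ?_ e2
        have e3 : m ^ 2 ≤ h ^ 2 := pow_le_pow_left₀ (by linarith) hmh 2
        have e4 : ((s : ℝ) + 1) ^ 2 ≤ ((s : ℝ) + 4) ^ 2 := by gcongr; norm_num
        have e5 : ((s : ℝ) + 4) ^ 2 ≤ ((s : ℝ) + 4) ^ 3 :=
          pow_le_pow_right₀ (by linarith) (by norm_num)
        calc ρ * (4 * h) = 32768 * (((s : ℝ) + 1) ^ 2 * m ^ 2 * h) := by rw [hρd]; ring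
          _ ≤ 2097152 * (((s : ℝ) + 4) ^ 3 * h ^ 2 * h) := by
              have e6 : ((s : ℝ) + 1) ^ 2 * m ^ 2 * h ≤ ((s : ℝ) + 4) ^ 3 * h ^ 2 * h := by
                apply mul_le_mul_of_nonneg_right _ (by linarith)
                exact mul_le_mul (e4.trans e5) e3 (by positivity) (by positivity)
              have e7 : 0 ≤ ((s : ℝ) + 1) ^ 2 * m ^ 2 * h := by positivity
              linarith
          _ = _ := by ring
      exact le_of_mul_le_mul_left (e1.trans hxT) hρpos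
    set P1 : ℝ := 2048 * ((s : ℝ) + 4) * b * h with hP1
    set P2 : ℝ := 12100 * ((s : ℝ) + 1) ^ 2 * Real.sqrt b ^ 5 with hP2
    have hP10 : 0 ≤ P1 := by positivity
    have hP20 : 0 ≤ P2 := by positivity
    have hP : P1 + P2 ≤ (TT R U x).card := by
      have e1 : ρ * (P1 + P2) ≤ B ^ 3 :=
        (mul_le_mul_of_nonneg_right hρq (by positivity)).trans hc1
      exact le_of_mul_le_mul_left (e1.trans hxT) hρpos
    have hembY := emb_large hR hY hh1 hYc hT4 (by linarith) (by linarith)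
    apply hn
    rw [hXY]
    exact place hR hX hh1 hXc hYc hembY (hAθ x (mem_filter.1 hxA).1) (mem_filter.1 hxA).2
  by_cases hcase2 : E * B / 4 ≤ ∑ x ∈ A2, N x ^ 2
  · -- dense links: `Y` in the neighbourhood
    have hane : A2.Nonempty := by
      rw [nonempty_iff_ne_empty]
      intro h0
      rw [h0, sum_empty] at hcase2
      have : 0 < E * B / 4 := by positivity
      linarith
    have ha1 : (1 : ℝ) ≤ a := by
      rcases Nat.eq_zero_or_pos a with h0 | h0
      · exfalso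
        obtain ⟨x, hx⟩ := hane
        have h3 := (mem_filter.1 ((mem_filter.1 hx).1)).2
        have h4 := hAθ x (mem_filter.1 ((mem_filter.1 hx).1)).1
        apply h3
        rw [h0, Nat.cast_zero, mul_zero, zero_mul]
        have : 0 < N x := by linarith
        positivity
      · exact_mod_cast h0
    obtain ⟨x, hxA, hxT⟩ := exists_tip2 hR hU hA2U hBpos hEB (c := 64 * (a : ℝ)) (by positivity)
      (by linarith) hcase2 (fun x hx => not_lt.1 (mem_filter.1 ((mem_filter.1 hx).1)).2)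
    have hρ : 32 * ((s : ℝ) + 1) ^ 2 * (64 * (a : ℝ)) ^ 2 =
        131072 * ((s : ℝ) + 1) ^ 2 * (a : ℝ) ^ 2 := by ring
    rw [hρ] at hxT
    set ρ : ℝ := 131072 * ((s : ℝ) + 1) ^ 2 * (a : ℝ) ^ 2 with hρd
    have hρpos : 0 < ρ := by positivity
    set P1 : ℝ := 2048 * ((s : ℝ) + 4) * a * h with hP1
    set P2 : ℝ := 12100 * ((s : ℝ) + 1) ^ 2 * Real.sqrt a ^ 5 with hP2
    have hP10 : 0 ≤ P1 := by positivity
    have hP20 : 0 ≤ P2 := by positivity
    have hP : P1 + P2 ≤ (TT R U x).card := le_of_mul_le_mul_left (hc2.trans hxT) hρpos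
    have hT4 : 4 * h ≤ (TT R U x).card := by
      have e1 : 4 * h ≤ P1 := by
        rw [hP1]
        have e2 : 1 * h ≤ ((s : ℝ) + 4) * a * h := by
          apply mul_le_mul_of_nonneg_right _ (by linarith)
          nlinarith
        linarith
      linarith
    have hembX := emb_large hR hX hh1 hXc hT4 (by linarith) (by linarith)
    apply hn
    rw [hXY, union_comm]
    exact place hR hY hh1 hYc hXc hembX (hAθ x (mem_filter.1 ((mem_filter.1 hxA).1)).1)
      (mem_filter.1 hxA).2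
  · -- very dense links are impossible
    have hcase3 : E * B / 4 ≤ ∑ x ∈ A3, N x ^ 2 := by
      push Not at hcase1 hcase2
      linarith
    have hane : A3.Nonempty := by
      rw [nonempty_iff_ne_empty]
      intro h0
      rw [h0, sum_empty] at hcase3
      have : 0 < E * B / 4 := by positivity
      linarith
    have hb1 : (1 : ℝ) ≤ b := by
      rcases Nat.eq_zero_or_pos b with h0 | h0
      · exfalso
        obtain ⟨x, hx⟩ := hane
        have h3 := (mem_filter.1 hx).2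
        have h4 := hAθ x (mem_filter.1 ((mem_filter.1 hx).1)).1
        apply h3
        rw [h0, Nat.cast_zero, mul_zero, zero_mul]
        have : 0 < N x := by linarith
        positivity
      · exact_mod_cast h0
    have hBb : 512 * (b : ℝ) ≤ B := by
      have h7 : 262144 * (b : ℝ) ^ 2 * B ≤ B ^ 3 := by
        refine le_trans ?_ hc3
        have e1 : 262144 * (b : ℝ) ^ 2 * B ≤ 262144 * (b : ℝ) ^ 2 * U.card :=
          mul_le_mul_of_nonneg_left hBU (by positivity)
        have e2 : 1 * (262144 * (b : ℝ) ^ 2 * U.card) ≤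
            ((s : ℝ) + 1) ^ 2 * (262144 * (b : ℝ) ^ 2 * U.card) :=
          mul_le_mul_of_nonneg_right hs1 (by positivity)
        linarith
      have h8 : (512 * (b : ℝ)) ^ 2 ≤ B ^ 2 := by
        have e1 : 262144 * (b : ℝ) ^ 2 * B ≤ B ^ 2 * B := by
          rw [← pow_succ]; exact h7
        have e2 := le_of_mul_le_mul_right e1 hBpos
        linarith
      exact le_of_sq_le_sq h8 hBpos.le
    obtain ⟨x, hxA, hxT⟩ := exists_tip2 hR hU hA3U hBpos hEB (c := 64 * (b : ℝ)) (by positivity)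
      (by linarith) hcase3 (fun x hx => not_lt.1 (mem_filter.1 hx).2)
    have h8 : ((TT R U x).card : ℝ) ≤ U.card := by exact_mod_cast card_le_card (filter_subset _ _)
    have hpos : 0 < 131072 * ((s : ℝ) + 1) ^ 2 * (b : ℝ) ^ 2 * U.card := by positivity
    have h9 : 32 * ((s : ℝ) + 1) ^ 2 * (64 * (b : ℝ)) ^ 2 * (TT R U x).card ≤
        131072 * ((s : ℝ) + 1) ^ 2 * (b : ℝ) ^ 2 * U.card := by
      have e1 : 32 * ((s : ℝ) + 1) ^ 2 * (64 * (b : ℝ)) ^ 2 =
        131072 * ((s : ℝ) + 1) ^ 2 * (b : ℝ) ^ 2 := by ring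
      rw [e1]
      exact mul_le_mul_of_nonneg_left h8 (by positivity)
    linarith

end Pool.Agent.helper43.Rsl2
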